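import Pool.Agent.H96.SX3

/-! An analytic IFS with super-exponential condensation, without exact overlaps, that is not
sub-conjugated to a self-similar IFS. -/

namespace Pool.Agent.Results.MP_6f21ce_an.No

open Set Filter Pool.Agent.H96.SX

/-- the open complex neighbourhood of radius `δ` of the unit interval -/
def B (δ : ℝ) : Set ℂ := Metric.thickening δ ((fun x : ℝ => (x : ℂ)) '' Icc 0 1)

/-- analytic IFS for the parameter `ε` -/
def IsAnalyticIFS (ε : ℝ) {N : ℕ} (f : Fin N → ℝ → ℝ) : Prop :=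
  2 ≤ N ∧ ∀ i, MapsTo (f i) (Icc 0 1) (Icc 0 1) ∧ ∃ F : ℂ → ℂ, AnalyticOnNhd ℂ F (B (2 * ε)) ∧
    (∀ x : ℝ, (x : ℂ) ∈ B (2 * ε) → F x = f i x) ∧ MapsTo F (closure (B ε)) (B ε) ∧
    ∀ z ∈ closure (B ε), 0 < ‖deriv F z‖ ∧ ‖deriv F z‖ < 1

/-- composition along a finite word -/
def word {N : ℕ} (f : Fin N → ℝ → ℝ) (u : List (Fin N)) : ℝ → ℝ :=
  u.foldr (fun i g => f i ∘ g) id

/-- exact overlap -/
def ExactOverlap {N : ℕ} (f : Fin N → ℝ → ℝ) : Prop :=
  ∃ u v, u ≠ v ∧ EqOn (word f u) (word f v) (Icc 0 1)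

/-- exponential separation condition -/
def ESC {N : ℕ} (f : Fin N → ℝ → ℝ) : Prop :=
  ∃ c > (0:ℝ), ∃ᶠ n : ℕ in atTop, ∀ u v : List (Fin N), u.length = n → v.length = n → u ≠ v →
    c ^ n ≤ sSup ((fun x => |word f u x - word f v x|) '' Icc 0 1)

/-- sub-conjugated to a self-similar IFS -/
def SubConj {N : ℕ} (f : Fin N → ℝ → ℝ) : Prop :=
  ∃ u v : List (Fin N), u ≠ v ∧ u.length = v.length ∧ ∃ g : ℝ → ℝ, AnalyticOn ℝ g (Icc 0 1) ∧
    InjOn g (Icc 0 1) ∧ ∃ l₁ l₂ t₁ t₂ : ℝ, l₁ ≠ 0 ∧ |l₁| < 1 ∧ l₂ ≠ 0 ∧ |l₂| < 1 ∧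
      ∀ x ∈ Icc (0:ℝ) 1, g (word f u x) = l₁ * g x + t₁ ∧ g (word f v x) = l₂ * g x + t₂

theorem re_bd {κ t δ : ℝ} (hκ : 0 < κ) (ht : 1 ≤ t ∧ t ≤ 2) (hδ : κ * δ ≤ 1 / 4) {z : ℂ} {x : ℝ}
    (hx : 0 ≤ x) (h : dist z x < δ) : 3 / 2 ≤ ‖2 + ((κ * t : ℝ) : ℂ) * z‖ := by
  refine le_trans ?_ (Complex.re_le_norm _)
  have h1 := (abs_le.1 ((Complex.abs_re_le_norm (z - x)).trans (dist_eq_norm z x ▸ h.le))).1
  have h0 : 0 < δ := dist_nonneg.trans_lt h
  simp only [Complex.sub_re, Complex.ofReal_re, Complex.add_re, Complex.re_ofReal_mul,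
    Complex.re_ofNat] at h1 ⊢
  have h2 := mul_le_mul_of_nonneg_left (show -δ ≤ z.re by linarith)
    (mul_pos hκ (by linarith [ht.1] : 0 < t)).le
  nlinarith [mul_pos hκ h0, ht.2]

theorem result : ∀ ε > (0:ℝ), ∃ (N : ℕ) (f : Fin N → ℝ → ℝ), IsAnalyticIFS ε f ∧
    (∀ x ∈ Icc (0:ℝ) 1, ∃ i, f i x ≠ x) ∧ ¬ ESC f ∧ ¬ ExactOverlap f ∧ ¬ SubConj f := by
  intro ε hε
  set κ : ℝ := 1 / (8 * ε + 1) with hκ'
  have hκ : 0 < κ := by positivity
  have hκ1 : κ ≤ 1 := by rw [hκ', div_le_one (by positivity)]; linarith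
  have hκ2 : κ * (2 * ε) ≤ 1 / 4 := by
    rw [hκ', div_mul_eq_mul_div, div_le_iff₀ (by positivity)]
    linarith
  obtain ⟨τ, hτ0, hτ1, hτ⟩ := ex_tau (κ / 2) (by positivity)
  have hτ2 : τ / κ ≤ 1 / 2 := by rw [div_le_iff₀ hκ]; linarith
  have hτ3 : 0 < τ / κ := by positivity
  set f : Fin 9 → ℝ → ℝ := fun i x => x / (2 + κ * tt i * x) + ee i * (τ / κ) with hf
  have hI : ∀ i, MapsTo (f i) (Icc 0 1) (Icc 0 1) := by
    intro i x hx
    have h1 : 0 ≤ κ * tt i * x := mul_nonneg (mul_nonneg hκ.le (by linarith [(tt_mem i).1])) hx.1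
    have h2 : x / (2 + κ * tt i * x) ≤ 1 / 2 := by
      rw [div_le_iff₀ (by linarith)]
      linarith [hx.2]
    have h3 := div_nonneg hx.1 (show 0 ≤ 2 + κ * tt i * x by linarith)
    have h4 := mul_le_mul (ee_mem i).2 hτ2 hτ3.le zero_le_one
    have h5 := mul_nonneg (ee_mem i).1 hτ3.le
    exact ⟨by simp only [hf]; linarith, by simp only [hf]; linarith⟩
  have hwI : ∀ u, MapsTo (word f u) (Icc 0 1) (Icc 0 1) := by
    intro u
    induction u with
    | nil => exact mapsTo_id _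
    | cons i u ih => exact (hI i).comp ih
  have hden : ∀ u, ∀ x ∈ Icc (0:ℝ) 1, 1 ≤ κ * ev τ u 1 0 * x + ev τ u 1 1 := by
    intro u x hx
    obtain ⟨a, b, c, d⟩ := ev_pos hτ0.le u
    have := mul_nonneg (mul_nonneg hκ.le c) hx.1
    linarith
  have hmob : ∀ u, ∀ x ∈ Icc (0:ℝ) 1, word f u x =
      (ev τ u 0 0 * x + ev τ u 0 1 / κ) / (κ * ev τ u 1 0 * x + ev τ u 1 1) := by
    intro u x hx
    induction u with
    | nil => simp [word, ev, W]
    | cons i u ih =>
      have h1 := hden u x hx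
      have h2 := hden (i :: u) x hx
      have h3 : word f (i :: u) x = f i (word f u x) := rfl
      have h4 : 2 + κ * tt i * word f u x = (κ * ev τ (i :: u) 1 0 * x + ev τ (i :: u) 1 1) /
          (κ * ev τ u 1 0 * x + ev τ u 1 1) := by
        rw [ih, ev1, ev1, eq_div_iff (by linarith), add_mul, mul_assoc (κ * tt i),
          div_mul_cancel₀ _ (by linarith)]
        field_simp
        ring
      rw [h3]
      simp only [hf]
      rw [h4, ih, div_div_div_cancel_right₀ (by linarith), ev0, ev0,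
        div_add' _ _ _ (by linarith)]
      congr 1
      field_simp
      ring
  have happ : ∀ u v x, word f (u ++ v) x = word f u (word f v x) := by
    intro u v x
    induction u with
    | nil => rfl
    | cons i u ih => exact congrArg (f i) ih
  have hdet : ∀ u, 0 < ev τ u 0 0 * ev τ u 1 1 - ev τ u 0 1 / κ * (κ * ev τ u 1 0) := by
    intro u
    rw [← mul_assoc, div_mul_cancel₀ _ hκ.ne', ev_det]
    positivity
  have hc : ∀ u, u ≠ [] → 0 < κ * ev τ u 1 0 := by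
    intro u hu
    obtain ⟨i, u, rfl⟩ := List.exists_cons_of_ne_nil hu
    exact mul_pos hκ (zero_lt_one.trans_le (ev_c hτ0.le i u))
  have hlt : ∀ u, u ≠ [] → ev τ u 0 0 < ev τ u 1 1 ∨ 0 < ev τ u 0 1 / κ := fun u hu =>
    ((ev_lt hτ0 u).2 hu).imp id fun h => div_pos h hκ
  have hmain : ∀ u v : List (Fin 9), u.length = v.length → ∀ q : ℝ, q ≠ 0 →
      ev τ u 0 0 * q + ev τ u 0 1 / κ = q * (κ * ev τ u 1 0 * q + ev τ u 1 1) →
      ev τ v 0 0 * q + ev τ v 0 1 / κ = q * (κ * ev τ v 1 0 * q + ev τ v 1 1) → u = v := by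
    intro u v hl q hq h1 h2
    refine main hτ u v hl (κ * q) (mul_ne_zero hκ.ne' hq) ?_ ?_
    · field_simp at h1
      linear_combination h1
    · field_simp at h2
      linear_combination h2
  have h0I : (0:ℝ) ∈ Icc (0:ℝ) 1 := left_mem_Icc.2 zero_le_one
  have h1I : (1:ℝ) ∈ Icc (0:ℝ) 1 := right_mem_Icc.2 zero_le_one
  have hhI : (1 / 2 : ℝ) ∈ Icc (0:ℝ) 1 := by norm_num
  have hsame : ∀ u v : List (Fin 9), u.length = v.length →
      EqOn (word f u) (word f v) (Icc 0 1) → u = v := by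
    intro u v hl h
    by_cases hu : u = []
    · rw [hu] at hl ⊢
      exact (List.eq_nil_of_length_eq_zero hl.symm).symm
    have e : ∀ x ∈ Icc (0:ℝ) 1, (ev τ u 0 0 * x + ev τ u 0 1 / κ) *
        (κ * ev τ v 1 0 * x + ev τ v 1 1) =
        (ev τ v 0 0 * x + ev τ v 0 1 / κ) * (κ * ev τ u 1 0 * x + ev τ u 1 1) := by
      intro x hx
      have := h hx
      rwa [hmob u x hx, hmob v x hx, div_eq_div_iff (by linarith [hden u x hx])
        (by linarith [hden v x hx])] at this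
    obtain ⟨p, q, hq, -, -, -, eq, -⟩ := roots _ _ _ _ (hc u hu)
      (div_nonneg (ev_pos hτ0.le u).2.1 hκ.le) (by
        have := (hwI u h1I).2
        rw [hmob u 1 h1I, div_le_one (by linarith [hden u 1 h1I])] at this
        linarith) (hlt u hu)
    refine hmain u v hl q hq.ne eq (mul_right_cancel₀
      (b := κ * ev τ u 1 0 * q + ev τ u 1 1) (fun h0 => ?_) ?_)
    · refine (hdet u).ne' ?_
      linear_combination (ev τ u 0 0 - κ * ev τ u 1 0 * q) * h0 - κ * ev τ u 1 0 * eq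
    · linear_combination (κ * ev τ v 1 0 * q + ev τ v 1 1) * eq -
        (2 * q - 1) * (q - 1) * e 0 h0I - q * (2 * q - 1) * e 1 h1I +
        4 * q * (q - 1) * e (1 / 2) hhI
  have hinj : ∀ u, InjOn (word f u) (Icc 0 1) := by
    intro u x hx y hy h
    rw [hmob u x hx, hmob u y hy, div_eq_div_iff (by linarith [hden u x hx])
      (by linarith [hden u y hy])] at h
    exact mul_left_cancel₀ (hdet u).ne' (by linear_combination h)
  refine ⟨9, f, ⟨by norm_num, fun i => ⟨hI i,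
    fun z => z / (2 + ((κ * tt i : ℝ) : ℂ) * z) + ((ee i * (τ / κ) : ℝ) : ℂ), ?_, ?_, ?_, ?_⟩⟩,
    ?_, ?_, ?_, ?_⟩
  · intro z hz
    obtain ⟨_, ⟨x, hx, rfl⟩, h⟩ := Metric.mem_thickening_iff.1 hz
    have := re_bd hκ (tt_mem i) hκ2 hx.1 h
    refine AnalyticAt.add (AnalyticAt.div analyticAt_id (by fun_prop) ?_) analyticAt_const
    rw [← norm_pos_iff]
    linarith
  · intro x _
    simp [hf]
  · intro z hz
    obtain ⟨_, ⟨x, hx, rfl⟩, h⟩ := Metric.mem_thickening_iff.1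
      (Metric.cthickening_subset_thickening' (by positivity : 0 < 11 / 10 * ε) (by linarith) _
        (Metric.closure_thickening_subset_cthickening _ _ hz))
    have h1 := re_bd hκ (tt_mem i) hκ2 hx.1 (h.trans (by linarith))
    have h2 := re_bd hκ (tt_mem i) hκ2 hx.1 (z := x) (by simpa using hε)
    refine Metric.mem_thickening_iff.2 ⟨_, ⟨f i x, hI i hx, rfl⟩, ?_⟩
    have n1 : 2 + ((κ * tt i : ℝ) : ℂ) * z ≠ 0 := by rw [← norm_pos_iff]; linarith
    have n2 : 2 + ((κ * tt i : ℝ) : ℂ) * x ≠ 0 := by rw [← norm_pos_iff]; linarith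
    have e : z / (2 + ((κ * tt i : ℝ) : ℂ) * z) + ((ee i * (τ / κ) : ℝ) : ℂ) - (f i x : ℂ) =
        2 * (z - x) / ((2 + ((κ * tt i : ℝ) : ℂ) * z) * (2 + ((κ * tt i : ℝ) : ℂ) * x)) := by
      simp only [hf]
      rw [Complex.ofReal_add, add_sub_add_right_eq_sub, Complex.ofReal_div, Complex.ofReal_add,
        Complex.ofReal_mul (κ * tt i), Complex.ofReal_ofNat, div_sub_div _ _ n1 n2]
      congr 1
      ring
    rw [dist_eq_norm] at h ⊢
    rw [e, norm_div, norm_mul, norm_mul, Complex.norm_ofNat, div_lt_iff₀ (by positivity)]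
    nlinarith [mul_le_mul h1 h2 (by norm_num) (norm_nonneg _)]
  · intro z hz
    obtain ⟨_, ⟨x, hx, rfl⟩, h⟩ := Metric.mem_thickening_iff.1
      (Metric.cthickening_subset_thickening' (by positivity : 0 < 2 * ε) (by linarith) _
        (Metric.closure_thickening_subset_cthickening _ _ hz))
    have h1 := re_bd hκ (tt_mem i) hκ2 hx.1 h
    have n1 : 2 + ((κ * tt i : ℝ) : ℂ) * z ≠ 0 := by rw [← norm_pos_iff]; linarith
    have hd := (((hasDerivAt_id z).div (((hasDerivAt_id z).const_mul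
      ((κ * tt i : ℝ) : ℂ)).const_add 2) n1).add_const ((ee i * (τ / κ) : ℝ) : ℂ)).deriv
    have e : deriv (fun z : ℂ => z / (2 + ((κ * tt i : ℝ) : ℂ) * z) +
        ((ee i * (τ / κ) : ℝ) : ℂ)) z = 2 / (2 + ((κ * tt i : ℝ) : ℂ) * z) ^ 2 := by
      refine Eq.trans hd ?_
      simp only [id]
      congr 1
      ring
    rw [e, norm_div, norm_pow, Complex.norm_ofNat]
    refine ⟨by positivity, ?_⟩
    rw [div_lt_one (by positivity)]
    nlinarith
  · intro x _
    by_contra hn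
    push Not at hn
    have h1 := (hn 0).trans (hn 8).symm
    simp [hf, ee, tt, hτ0.ne', hκ.ne'] at h1
  · rintro ⟨c, hc0, h⟩
    obtain ⟨n, h1, P, Q, R, hP, hQ, hR, hne, hb⟩ := (h.and_eventually (approx c hc0)).exists
    obtain ⟨u, u1, u2, u3, u4, u5⟩ := exw n P 0 0 hP (by positivity) (by positivity)
    obtain ⟨v, v1, v2, v3, v4, v5⟩ := exw n 0 Q R (by positivity) hQ hR
    refine absurd (h1 u v u1 v1 fun e => ?_) (not_le.2 (lt_of_le_of_lt (csSup_le
      ((nonempty_Icc.2 zero_le_one).image _) ?_) hb))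
    · rw [e] at u4 u5
      omega
    rintro _ ⟨x, hx, rfl⟩
    have e1 : 3 * (av v - av u) = Q * sx 0 + R * sx 1 - P := by
      have a1 : (dg (fun i => 3 + i % 2) u : ℝ) + 3 = 3 * 2 ^ n + P := by exact_mod_cast u3
      have a2 : (dg (fun i => 3 + i % 2) v : ℝ) + 3 = 3 * 2 ^ n + 0 := by exact_mod_cast v3
      simp only [av, u4, u5, v4, v5]
      push_cast
      linarith
    have d1 := hden u x hx
    have d2 := hden v x hx
    dsimp only
    rw [hmob u x hx, hmob v x hx, div_sub_div _ _ (by linarith) (by linarith), abs_div,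
      abs_of_pos (mul_pos (by linarith) (by linarith) : 0 < (κ * ev τ u 1 0 * x + ev τ u 1 1) *
        (κ * ev τ v 1 0 * x + ev τ v 1 1))]
    refine (div_le_self (abs_nonneg _) (one_le_mul_of_one_le_of_one_le d1 d2)).trans ?_
    obtain ⟨a1, a2, a3, -⟩ := W_pure u u2
    obtain ⟨b1, b2, b3, -⟩ := W_pure v v2
    simp only [ev, a1, a2, a3, b1, b2, b3, W_av u u2, W_av v v2, u1, v1, Polynomial.eval_C,
      Polynomial.eval_one, Polynomial.eval_zero]
    rw [← e1, show ∀ D : ℝ, (1 * x + 0 / κ) * (κ * av v * x + D) -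
      (κ * av u * x + D) * (1 * x + 0 / κ) = κ * x * x / 3 * (3 * (av v - av u)) from
      fun D => by ring, abs_mul]
    refine mul_le_of_le_one_left (abs_nonneg _) ?_
    have := mul_le_mul hκ1 hx.2 hx.1 zero_le_one
    have := mul_nonneg hκ.le hx.1
    rw [abs_of_nonneg (by have := hx.1; positivity)]
    nlinarith [hx.1, hx.2]
  · have key : ∀ u v : List (Fin 9), u.length ≤ v.length →
        EqOn (word f u) (word f v) (Icc 0 1) → u = v := by
      intro u v hl h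
      have h1 := hsame (u ++ v) (v ++ u) (by simp [add_comm]) fun x hx => by
        rw [happ, happ, h (hwI v hx), h hx]
      obtain ⟨w, rfl⟩ := List.prefix_of_prefix_length_le (List.prefix_append u v)
        (h1 ▸ List.prefix_append v u) hl
      by_cases hw : w = []
      · simp [hw]
      exfalso
      have h2 : ∀ x ∈ Icc (0:ℝ) 1, ev τ w 0 0 * x + ev τ w 0 1 / κ =
          x * (κ * ev τ w 1 0 * x + ev τ w 1 1) := by
        intro x hx
        have := hinj u (hwI w hx) hx (by rw [← happ, ← h hx])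
        rwa [hmob w x hx, div_eq_iff (by linarith [hden w x hx])] at this
      linarith [h2 0 h0I, h2 1 h1I, h2 _ hhI, hc w hw]
    rintro ⟨u, v, hne, h⟩
    rcases le_total u.length v.length with hl | hl
    exacts [hne (key u v hl h), hne (key v u hl h.symm).symm]
  · rintro ⟨u, v, hne, hl, g, hg, hi, l₁, l₂, t₁, t₂, -, -, -, -, h⟩
    have hu : u ≠ [] := by
      rintro rfl
      exact hne (List.eq_nil_of_length_eq_zero hl.symm).symm
    have hv : v ≠ [] := by
      rintro rfl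
      exact hne (List.eq_nil_of_length_eq_zero hl)
    obtain ⟨p, q, α, β, m, a1, a2, a3, a4, a5, a6⟩ := lin _ _ _ _ (hc u hu)
      (zero_lt_one.trans_le (ev_pos hτ0.le u).2.2.2) (div_nonneg (ev_pos hτ0.le u).2.1 hκ.le)
      (hdet u) (hlt u hu) _ (hmob u) (hwI u) g hg hi l₁ t₁ fun x hx => (h x hx).1
    obtain ⟨p', q', α', β', m', -, -, -, -, b5, b6⟩ := lin _ _ _ _ (hc v hv)
      (zero_lt_one.trans_le (ev_pos hτ0.le v).2.2.2) (div_nonneg (ev_pos hτ0.le v).2.1 hκ.le)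
      (hdet v) (hlt v hv) _ (hmob v) (hwI v) g hg hi l₂ t₂ fun x hx => (h x hx).2
    rw [← same_pole a2 a3 a4 a6 b6] at b5
    exact hne (hmain u v hl q a1.ne a5 b5)

end Pool.Agent.Results.MP_6f21ce_an.No
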